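import Pool.Agent.W857.CC.Stm

/-!
Project CC (helper857), part WALK: closed walks in the reduced graph.
-/

set_option autoImplicit false

namespace Pool.Agent.W991.CC.Walk

open Finset SimpleGraph
open scoped Classical
open Pool.Agent.W857.CC

variable {ι : Type} {R : SimpleGraph ι}

/-- number of visits (the last vertex is not counted) -/
noncomputable def cnt {u v : ι} (p : R.Walk u v) (i : ι) : ℕ :=
  ∑ t ∈ range p.length, if p.getVert t = i then 1 else 0

lemma cnt_le {u v : ι} (p : R.Walk u v) (i : ι) : cnt p i ≤ p.length := by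
  rw [cnt]
  calc ∑ t ∈ range p.length, (if p.getVert t = i then 1 else 0)
      ≤ ∑ _t ∈ range p.length, 1 := Finset.sum_le_sum fun t _ => by split_ifs <;> simp
    _ = p.length := by simp

lemma cnt_append {u v w : ι} (p : R.Walk u v) (q : R.Walk v w) (i : ι) :
    cnt (p.append q) i = cnt p i + cnt q i := by
  rw [cnt, cnt, cnt, Walk.length_append, Finset.sum_range_add]
  congr 1
  · refine Finset.sum_congr rfl fun t ht => ?_
    rw [Finset.mem_range] at ht
    rw [Walk.getVert_append, if_pos ht]
  · refine Finset.sum_congr rfl fun t ht => ?_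
    have h : ¬ (p.length + t < p.length) := by omega
    rw [Walk.getVert_append, if_neg h, Nat.add_sub_cancel_left]

/-- Kronecker delta -/
noncomputable def kd (v i : ι) : ℕ := if v = i then 1 else 0

lemma kd_self (v : ι) : kd v v = 1 := if_pos rfl

lemma kd_ne {v i : ι} (h : v ≠ i) : kd v i = 0 := if_neg h

lemma cnt_detour {v w : ι} (h : R.Adj v w) (i : ι) :
    cnt (Walk.cons h (Walk.cons h.symm Walk.nil)) i = kd v i + kd w i := by
  rw [cnt]
  simp only [Walk.length_cons, Walk.length_nil, Finset.sum_range_succ, Finset.sum_range_zero,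
    Walk.getVert_cons_succ, Walk.getVert_zero, zero_add, kd]

lemma insert_detour {u u' v w : ι} (p : R.Walk u u') (hv : v ∈ p.support) (h : R.Adj v w) :
    ∃ p' : R.Walk u u', p'.length = p.length + 2 ∧ (∀ x ∈ p.support, x ∈ p'.support) ∧
      ∀ i, cnt p' i = cnt p i + (kd v i + kd w i) := by
  refine ⟨(p.takeUntil v hv).append ((Walk.cons h (Walk.cons h.symm Walk.nil)).append
    (p.dropUntil v hv)), ?_, ?_, ?_⟩
  · have h1 := congrArg Walk.length (p.take_spec hv)
    rw [Walk.length_append] at h1
    simp only [Walk.length_append, Walk.length_cons, Walk.length_nil]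
    omega
  · intro x hx
    have h1 := congrArg Walk.support (p.take_spec hv)
    rw [← h1, Walk.mem_support_append_iff] at hx
    rw [Walk.mem_support_append_iff, Walk.mem_support_append_iff]
    tauto
  · intro i
    have h1 : cnt ((p.takeUntil v hv).append (p.dropUntil v hv)) i = cnt p i := by
      rw [p.take_spec hv]
    rw [cnt_append] at h1
    rw [cnt_append, cnt_append, cnt_detour]
    omega

/-- many detours -/
lemma detours {k : ℕ} {R : SimpleGraph (Fin k)} {u : Fin k} (p : R.Walk u u)
    (D : Finset (Fin k)) (f : Fin k → Fin k) (hD : ∀ i ∈ D, i ∈ p.support)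
    (hf : ∀ i ∈ D, R.Adj i (f i)) (r n : ℕ) (hn : n ≤ r * #D) :
    ∃ (ρ : Fin k → ℕ) (q : R.Walk u u), (∀ i, ρ i ≤ r) ∧ ∑ i ∈ D, ρ i = n ∧
      q.length = p.length + 2 * n ∧ (∀ x ∈ p.support, x ∈ q.support) ∧
      ∀ i, cnt q i ≤ cnt p i + (ρ i + ∑ j ∈ D.filter (fun j => f j = i), ρ j) := by
  induction n with
  | zero =>
    exact ⟨fun _ => 0, p, fun _ => Nat.zero_le _, by simp, by simp, fun x hx => hx,
      fun i => by simp⟩
  | succ n ih =>
    obtain ⟨ρ, q, h1, h2, h3, h4, h5⟩ := ih (by omega)
    obtain ⟨i₀, hi₀, hlt⟩ : ∃ i ∈ D, ρ i < r := by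
      by_contra hcon
      push Not at hcon
      have : r * #D ≤ ∑ i ∈ D, ρ i := by
        calc r * #D = ∑ _i ∈ D, r := by rw [Finset.sum_const, smul_eq_mul, mul_comm]
          _ ≤ ∑ i ∈ D, ρ i := Finset.sum_le_sum hcon
      omega
    obtain ⟨q', h6, h7, h8⟩ := insert_detour q (h4 i₀ (hD i₀ hi₀)) (hf i₀ hi₀)
    refine ⟨Function.update ρ i₀ (ρ i₀ + 1), q', ?_, ?_, ?_, fun x hx => h7 x (h4 x hx), ?_⟩
    · intro i
      rcases eq_or_ne i i₀ with rfl | hne
      · rw [Function.update_self]
        omega
      · rw [Function.update_of_ne hne]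
        exact h1 i
    · rw [Finset.sum_update_of_mem hi₀, ← Finset.sum_erase_add D ρ hi₀] at *
      rw [Finset.sdiff_singleton_eq_erase]
      omega
    · rw [h6, h3]
      ring
    · intro i
      rw [h8]
      have h9 : ρ i + kd i₀ i = Function.update ρ i₀ (ρ i₀ + 1) i := by
        rcases eq_or_ne i i₀ with rfl | hne
        · rw [Function.update_self, kd_self]
        · rw [Function.update_of_ne hne, kd_ne (Ne.symm hne)]
          omega
      have h10 : ∑ j ∈ D.filter (fun j => f j = i), Function.update ρ i₀ (ρ i₀ + 1) j =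
          ∑ j ∈ D.filter (fun j => f j = i), ρ j + kd (f i₀) i := by
        by_cases hfi : f i₀ = i
        · have hmem : i₀ ∈ D.filter (fun j => f j = i) := Finset.mem_filter.mpr ⟨hi₀, hfi⟩
          rw [Finset.sum_update_of_mem hmem, hfi, kd_self, Finset.sdiff_singleton_eq_erase,
            ← Finset.sum_erase_add _ ρ hmem]
          omega
        · have hmem : i₀ ∉ D.filter (fun j => f j = i) := fun h =>
            hfi (Finset.mem_filter.mp h).2
          rw [Finset.sum_update_of_notMem hmem, kd_ne hfi]
          rfl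
      rw [← h9, h10]
      have := h5 i
      omega

/-- a closed walk of bounded even length through all vertices of `S` -/
lemma base {k : ℕ} {R : SimpleGraph (Fin k)} (a : Fin k) (S : Finset (Fin k))
    (hS : ∀ i ∈ S, R.Reachable a i) :
    ∃ p : R.Walk a a, Even p.length ∧ p.length ≤ 2 * k * #S ∧ ∀ x ∈ S, x ∈ p.support := by
  induction S using Finset.induction_on with
  | empty => exact ⟨Walk.nil, by simp, by simp, by simp⟩
  | insert x S hx ih =>
    obtain ⟨p, h1, h2, h3⟩ := ih (fun i hi => hS i (Finset.mem_insert_of_mem hi))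
    obtain ⟨q, hq⟩ := (hS x (Finset.mem_insert_self _ _)).exists_isPath
    have hlen := hq.length_lt
    rw [Fintype.card_fin] at hlen
    refine ⟨p.append (q.append q.reverse), ?_, ?_, ?_⟩
    · rw [Walk.length_append, Walk.length_append, Walk.length_reverse]
      exact h1.add ⟨q.length, rfl⟩
    · rw [Walk.length_append, Walk.length_append, Walk.length_reverse,
        Finset.card_insert_of_notMem hx, Nat.mul_succ]
      omega
    · intro y hy
      rw [Walk.mem_support_append_iff, Walk.mem_support_append_iff]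
      rw [Finset.mem_insert] at hy
      rcases hy with rfl | hy
      · right; left
        exact q.end_mem_support
      · left
        exact h3 y hy

/-- from a closed walk to a sequence -/
lemma to_seq {u : ι} (p : R.Walk u u) (hp : 1 ≤ p.length) :
    ClWalk R p.length p.getVert ∧ ∀ i, visits p.length p.getVert i = cnt p i := by
  refine ⟨⟨fun i hi => p.adj_getVert_succ (by omega), ?_⟩, fun i => ?_⟩
  · have h1 := p.adj_getVert_succ (i := p.length - 1) (by omega)
    rw [Nat.sub_add_cancel hp, Walk.getVert_length] at h1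
    rw [Walk.getVert_zero]
    exact h1
  · rw [visits, cnt, Finset.card_filter]

/-- closed walks of every length `≥ 3` -/
lemma short {a b c : ι} (h1 : R.Adj a b) (h2 : R.Adj b c) (h3 : R.Adj a c) (ℓ : ℕ) (hℓ : 3 ≤ ℓ) :
    ∃ p : R.Walk a a, p.length = ℓ := by
  have key : ∀ m : ℕ, ∀ p : R.Walk a a, ∃ q : R.Walk a a, q.length = p.length + 2 * m := by
    intro m
    induction m with
    | zero => exact fun p => ⟨p, by simp⟩
    | succ m ih =>
      intro p
      obtain ⟨q, hq⟩ := ih (Walk.cons h1 (Walk.cons h1.symm p))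
      refine ⟨q, ?_⟩
      rw [hq, Walk.length_cons, Walk.length_cons]
      ring
  rcases Nat.even_or_odd' ℓ with ⟨m, hm | hm⟩
  · obtain ⟨q, hq⟩ := key m Walk.nil
    exact ⟨q, by rw [hq, Walk.length_nil, hm]; ring⟩
  · obtain ⟨q, hq⟩ := key (m - 1) (Walk.cons h1 (Walk.cons h2 (Walk.cons h3.symm Walk.nil)))
    refine ⟨q, ?_⟩
    rw [hq]
    simp only [Walk.length_cons, Walk.length_nil]
    omega

theorem main : S_WALK := by
  refine ⟨fun k => 2 * k * k + 3, ?_⟩
  rintro k R S hconn hE ⟨a, b, c, hab, hbc, hac⟩ D f hinj hf r ℓ hℓ hle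
  by_cases hsmall : ℓ ≤ 2 * k * k + 3
  · obtain ⟨p, hp⟩ := short hab hbc hac ℓ hℓ
    obtain ⟨h1, h2⟩ := to_seq p (by omega)
    rw [hp] at h1 h2
    refine ⟨p.getVert, h1, fun i => ?_⟩
    rw [h2 i]
    have := cnt_le p i
    change _ ≤ 2 * k * k + 3 + 2 * r
    omega
  · push Not at hsmall
    have haS : a ∈ S := (hE a b hab).1
    obtain ⟨p, hp1, hp2, hp3⟩ := base a S (fun i hi => hconn a haS i hi)
    have hcard : #S ≤ k := by
      have := Finset.card_le_univ S
      rwa [Fintype.card_fin] at this
    have hp2' : p.length ≤ 2 * k * k := hp2.trans (Nat.mul_le_mul_left _ hcard)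
    -- choose the parity
    obtain ⟨q, n, hq1, hq2, hq3⟩ : ∃ (q : R.Walk a a) (n : ℕ), q.length + 2 * n = ℓ ∧
        q.length ≤ 2 * k * k + 3 ∧ ∀ x ∈ S, x ∈ q.support := by
      obtain ⟨m, hm⟩ := hp1
      rcases Nat.even_or_odd' ℓ with ⟨t, ht | ht⟩
      · exact ⟨p, t - m, by omega, by omega, hp3⟩
      · refine ⟨p.append (Walk.cons hab (Walk.cons hbc (Walk.cons hac.symm Walk.nil))),
          t - m - 1, ?_, ?_, ?_⟩
        · simp only [Walk.length_append, Walk.length_cons, Walk.length_nil]
          omega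
        · simp only [Walk.length_append, Walk.length_cons, Walk.length_nil]
          omega
        · intro x hx
          rw [Walk.mem_support_append_iff]
          exact Or.inl (hp3 x hx)
    obtain ⟨ρ, q', h1, h2, h3, h4, h5⟩ := detours q D f
      (fun i hi => hq3 i (hE i (f i) (hf i hi)).1) hf r n (by
        have : 2 * n ≤ 2 * r * #D := by omega
        rw [mul_assoc] at this
        omega)
    have hlen : q'.length = ℓ := by omega
    obtain ⟨h6, h7⟩ := to_seq q' (by omega)
    rw [hlen] at h6 h7
    refine ⟨q'.getVert, h6, fun i => ?_⟩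
    rw [h7 i]
    have h8 := h5 i
    have h9 := cnt_le q i
    have h10 : ∑ j ∈ D.filter (fun j => f j = i), ρ j ≤ r := by
      calc ∑ j ∈ D.filter (fun j => f j = i), ρ j
          ≤ ∑ _j ∈ D.filter (fun j => f j = i), r := Finset.sum_le_sum fun j _ => h1 j
        _ = #(D.filter (fun j => f j = i)) * r := by rw [Finset.sum_const, smul_eq_mul]
        _ ≤ 1 * r := by
            refine Nat.mul_le_mul_right _ ?_
            rw [Finset.card_le_one]
            intro x hx y hy
            rw [Finset.mem_filter] at hx hy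
            exact hinj (by exact_mod_cast hx.1) (by exact_mod_cast hy.1) (hx.2.trans hy.2.symm)
        _ = r := one_mul r
    have h11 := h1 i
    change _ ≤ 2 * k * k + 3 + 2 * r
    omega

end Pool.Agent.W991.CC.Walk
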